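import Mathlib
import Pool.Agent.H10.Sar.LevH

set_option autoImplicit false

namespace Pool.Agent.Results.MP_d4a191_nt.PointwiseSarnak

open NumberField Module MeasureTheory Filter Topology

/-- The map `ι(n) = n_1 b_1 + ... + n_D b_D` attached to an integral basis `b_1, ..., b_D`. -/
noncomputable def iota {K : Type*} [Field K] [NumberField K] {D : ℕ}
    (b : Basis (Fin D) ℤ (𝓞 K)) (n : Fin D → ℤ) : 𝓞 K := ∑ i, n i • b i

/-- The class `M_K`: `χ(mn) = χ(m) χ(n)` whenever the norms of `m` and `n` are coprime, and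
`|χ| ≤ 1`. -/
def IsMultiplicative {K : Type*} [Field K] [NumberField K] (χ : 𝓞 K → ℂ) : Prop :=
  (∀ m n : 𝓞 K, IsCoprime (Algebra.norm ℤ m) (Algebra.norm ℤ n) → χ (m * n) = χ m * χ n) ∧
    ∀ m : 𝓞 K, ‖χ m‖ ≤ 1

/-- `D`-dimensional arithmetic progressions
`{n_0 + (M_1 k_1, ..., M_D k_D) : 0 ≤ k_i < N_i}` with all `M_i, N_i ≥ 1`. -/
def IsProgression {D : ℕ} (P : Set (Fin D → ℤ)) : Prop :=
  ∃ (n₀ : Fin D → ℤ) (M N : Fin D → ℕ), (∀ i, 1 ≤ M i) ∧ (∀ i, 1 ≤ N i) ∧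
    P = {n | ∃ k : Fin D → ℕ, (∀ i, k i < N i) ∧ ∀ i, n i = n₀ i + M i * k i}

open scoped Classical in
/-- Aperiodicity: the averages of `1_P(n) χ(ι(n))` over `-N ≤ n_1, ..., n_D ≤ N` tend to `0` as
`N → ∞`, uniformly over all `D`-dimensional arithmetic progressions `P`. -/
def IsAperiodic {K : Type*} [Field K] [NumberField K] {D : ℕ}
    (b : Basis (Fin D) ℤ (𝓞 K)) (χ : 𝓞 K → ℂ) : Prop :=
  ∀ ε : ℝ, 0 < ε → ∃ N₀ : ℕ, ∀ N : ℕ, N₀ ≤ N → ∀ P : Set (Fin D → ℤ), IsProgression P →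
    ‖(1 / (2 * (N : ℂ) + 1) ^ D) * ∑ n ∈ Fintype.piFinset (fun _ : Fin D => Finset.Icc (-(N : ℤ)) N),
      (if n ∈ P then 1 else 0) * χ (iota b n)‖ ≤ ε

/-- The map `T_1^{n_1} ∘ ... ∘ T_D^{n_D}`. -/
def iter {D : ℕ} {Ω : Type*} (T : Fin D → Ω → Ω) (n : Fin D → ℕ) : Ω → Ω :=
  (List.ofFn (fun i => (T i)^[n i])).foldr (fun f g => f ∘ g) id

/-- The pointwise measurable Sarnak conjecture over number fields: for every number field `K`,
every integral basis, every aperiodic bounded multiplicative function `χ`, every system of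
commuting measure preserving maps of a probability space and every `Φ` in `L^∞(μ)`, the averages
of `χ(n_1 b_1 + ... + n_D b_D) Φ(T_1^{n_1} ... T_D^{n_D} x)` over `1 ≤ n_1, ..., n_D ≤ N` tend to
`0` for almost every `x`. -/
theorem result {K : Type*} [Field K] [NumberField K] {D : ℕ} (b : Basis (Fin D) ℤ (𝓞 K))
    (χ : 𝓞 K → ℂ) (hχ : IsMultiplicative χ) (hap : IsAperiodic b χ)
    {Ω : Type*} [MeasurableSpace Ω] (μ : Measure Ω) [IsProbabilityMeasure μ]
    (T : Fin D → Ω → Ω) (hT : ∀ i, MeasurePreserving (T i) μ μ)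
    (hcomm : ∀ i j, (T i ∘ T j) =ᵐ[μ] (T j ∘ T i)) (Φ : Ω → ℂ) (hΦ : MemLp Φ ⊤ μ) :
    ∀ᵐ x ∂μ, Tendsto (fun N : ℕ => (1 / (N : ℂ) ^ D) *
      ∑ n ∈ Fintype.piFinset (fun _ : Fin D => Finset.Icc 1 N),
        χ (iota b (fun i => (n i : ℤ))) * Φ (iter T n x)) atTop (𝓝 0) := by
  classical
  have hio : ∀ n : Fin D → ℤ, iota b n = b.equivFun.symm n := by
    intro n
    rw [Basis.equivFun_symm_apply]
    rfl
  have hap' : Pool.Agent.H10.Sar.Aper (fun n => χ (b.equivFun.symm n)) := by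
    intro ε hε
    obtain ⟨N₀, h⟩ := hap ε hε
    refine ⟨N₀, ?_⟩
    intro N hN n0 M L hM hL
    have h1 := h N hN (Pool.Agent.H10.Sar.AP n0 M L) (by
      refine ⟨n0, M, L, hM, hL, ?_⟩
      unfold Pool.Agent.H10.Sar.AP
      ext n
      simp only [Set.mem_ofPred_eq, funext_iff])
    have h2 : (0 : ℝ) < (2 * (N : ℝ) + 1) ^ D := by positivity
    have h3 : ‖(2 * (N : ℂ) + 1) ^ D‖ = (2 * (N : ℝ) + 1) ^ D := by
      rw [norm_pow]
      congr 1
      have : (2 * (N : ℂ) + 1) = ((2 * N + 1 : ℕ) : ℂ) := by push_cast; ring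
      rw [this, Complex.norm_natCast]
      push_cast
      ring
    rw [norm_mul, norm_div, norm_one, h3, one_div, inv_mul_le_iff₀ h2] at h1
    rw [mul_comm]
    refine le_trans (le_of_eq ?_) h1
    congr 1
    rw [Finset.sum_filter]
    unfold Pool.Agent.H10.Sar.sbx
    refine Finset.sum_congr rfl (fun n _ => ?_)
    rw [hio]
    by_cases hn : n ∈ Pool.Agent.H10.Sar.AP n0 M L
    · rw [if_pos hn, if_pos hn, one_mul]
    · rw [if_neg hn, if_neg hn, zero_mul]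
  have key := Pool.Agent.H10.Sar.transfer (fun n => χ (b.equivFun.symm n)) (fun n => hχ.2 _)
    (fun m s hm _ => Pool.Agent.H10.Sar.ustat b χ hχ.1 hχ.2 hap' m s hm) μ T hT hcomm Φ hΦ
  simp only [hio]
  exact key

end Pool.Agent.Results.MP_d4a191_nt.PointwiseSarnak
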